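import Pool.Agent.J6H18.GS.Fin
import Pool.Agent.J6H18.GS.HM
import Pool.Agent.J6H18.GS.F1
import Pool.Agent.J6H18.GS.WW
import Pool.Agent.J6H18.GS.CV
import Pool.Agent.J6H18.GS.EN

set_option autoImplicit false

/-!
# MP_b87f19_lc: subsets of finite positive Hausdorff measure

The statement (∗) is refuted (in ZFC), and for every gauge `f` it is decided whether every set `A ⊆ ℝ` with
`H^f(A) > 0` has a subset of finite positive `H^f`-measure: this holds if and only if `f t / t` does not tend to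
infinity as `t → 0`.  The definitions `IsGauge`, `Hd`, `H` are in `Pool.Agent.J6H18.GS.Stm`.

The set `A` is the image of a set `{(c_α, x_α) : α < κ}`, where `κ` is the least cardinality of a set of reals of positive
outer Lebesgue measure, `{x_α : α < κ}` is such a set and `c_α` is a code of a Borel null set containing `x_β` for all
`β ≤ α` (Grzegorek's idea), under an injective Borel map `φ` with `|x - x'| ≤ f(|φ(c, x) - φ(c', x')|)` for close points.
-/

open MeasureTheory Filter Set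
open scoped Topology ENNReal

namespace Pool.Agent.Results.MP_b87f19_lc.FinitePositiveSubsets

open Pool.Agent.J6H18.GS

/-- The negation of (∗), and the dichotomy for all gauges. -/
theorem result :
    (∃ f : ℝ → ℝ, IsGauge f ∧ ∃ A : Set ℝ, 0 < H f A ∧ ∀ A0 ⊆ A, H f A0 = 0 ∨ H f A0 = ⊤) ∧
    ∀ f : ℝ → ℝ, IsGauge f →
      (Tendsto (fun t => f t / t) (𝓝[>] 0) atTop →
        ∃ A : Set ℝ, H f A = ⊤ ∧ (∀ A0 ⊆ A, H f A0 = 0 ∨ H f A0 = ⊤) ∧
          ∀ (ν : Measure ℝ) [IsFiniteMeasure ν] [NullSingletonClass ν], ν A = 0) ∧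
      (¬ Tendsto (fun t => f t / t) (𝓝[>] 0) atTop →
        ∀ A : Set ℝ, 0 < H f A → ∃ A0 ⊆ A, 0 < H f A0 ∧ H f A0 < ⊤) := by
  obtain ⟨h1, h2, h3⟩ := final t_HM t_F1 t_EN t_WW t_CV
  exact ⟨h1, fun f hf => ⟨h3 f hf, (h2 f hf).2⟩⟩

end Pool.Agent.Results.MP_b87f19_lc.FinitePositiveSubsets
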